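import Pool.Agent.Helper27_UNF.Rfp

set_option autoImplicit false

/-!
# Squad UNF, module FNP: products of finite Coxeter groups
-/

namespace Unf.H27

open Art Unf

theorem simple_pow {S : Type} (M : CoxeterMatrix S) (s t : S) :
    (M.simple s * M.simple t) ^ M.M s t = 1 :=
  M.toCoxeterSystem.simple_mul_simple_pow s t

theorem closure_simple {S : Type} (M : CoxeterMatrix S) :
    Subgroup.closure (Set.range M.simple) = ⊤ :=
  M.toCoxeterSystem.subgroup_closure_range_simple

/-- The homomorphism of Coxeter groups of a restriction. -/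
theorem incW {S : Type} (M : CoxeterMatrix S) (D : Set S) :
    ∃ φ : (res M D).Group →* M.Group, ∀ x : D, φ ((res M D).simple x) = M.simple x.1 := by
  refine ⟨(res M D).toCoxeterSystem.lift ⟨fun x => M.simple x.1, ?_⟩, ?_⟩
  · intro x y
    exact simple_pow M x.1 y.1
  · intro x
    exact (res M D).toCoxeterSystem.lift_apply_simple _ x

/-- FNP -/
theorem fnp : FnpStmt := by
  classical
  intro S _ M ι _ b hb hfin
  have : Fintype ι := Fintype.ofFinite ι
  choose ι' hι' using fun i => incW M {s | b s = i}
  have hcomm : Pairwise fun i j => ∀ x y, Commute (ι' i x) (ι' j y) := by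
    intro i j hij
    refine commute_hom (ι' i) (ι' j) _ _ (closure_simple _) (closure_simple _) ?_
    rintro _ ⟨x, rfl⟩ _ ⟨y, rfl⟩
    rw [hι', hι']
    have hxy : M.M x.1 y.1 = 2 := by
      apply hb
      rw [x.2, y.2]
      exact hij
    have h := simple_pow M x.1 y.1
    rw [hxy, pow_two] at h
    have hs := M.toCoxeterSystem.simple_mul_simple_self x.1
    have ht := M.toCoxeterSystem.simple_mul_simple_self y.1
    change M.simple x.1 * M.simple x.1 = 1 at hs
    change M.simple y.1 * M.simple y.1 = 1 at ht
    show M.simple x.1 * M.simple y.1 = M.simple y.1 * M.simple x.1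
    have e1 : (M.simple y.1 * M.simple x.1) * (M.simple x.1 * M.simple y.1) = 1 := by
      rw [mul_assoc, ← mul_assoc (M.simple x.1) (M.simple x.1), hs, one_mul, ht]
    have e2 := eq_inv_of_mul_eq_one_right e1
    have e3 := eq_inv_of_mul_eq_one_left h
    have e4 : M.simple y.1 * M.simple x.1 = (M.simple x.1 * M.simple y.1)⁻¹ :=
      eq_inv_of_mul_eq_one_left e1
    rw [e4]
    exact e3
  let Ψ := MonoidHom.noncommPiCoprod ι' hcomm
  have hsurj : Function.Surjective Ψ := by
    rw [← MonoidHom.range_eq_top, ← top_le_iff, ← closure_simple M, Subgroup.closure_le]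
    rintro _ ⟨s, rfl⟩
    refine ⟨Pi.mulSingle (b s) ((res M {t | b t = b s}).simple ⟨s, rfl⟩), ?_⟩
    show MonoidHom.noncommPiCoprod ι' hcomm _ = _
    rw [MonoidHom.noncommPiCoprod_mulSingle, hι']
  exact Finite.of_surjective Ψ hsurj

end Unf.H27
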