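import Pool.Agent.Helper12_UNF.Stmts2

set_option autoImplicit false

/-!
# Squad UNF, module I2F, part 2: normal forms in a dihedral Artin group
-/

namespace Unf.H27

open Art Unf

section
variable {G : Type} [Group G]

/-- `g` is a positive word without long alternating subwords, which starts with the letter `α`; the
first alternating run has length `i + 1`. -/
inductive W (x : Bool → G) (n : ℕ) : Bool → ℕ → G → Prop
  | one (α : Bool) : W x n α 0 (x α)
  | same (α : Bool) (i : ℕ) (g : G) : W x n α i g → W x n α 0 (x α * g)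
  | other (α : Bool) (i : ℕ) (g : G) : W x n α i g → i + 2 < n →
      W x n (!α) (i + 1) (x (!α) * g)

theorem W.lt {x : Bool → G} {n : ℕ} (hn : 2 ≤ n) {α : Bool} {i : ℕ} {g : G}
    (h : W x n α i g) : i + 1 < n := by
  cases h with
  | one => omega
  | same => omega
  | other α i g _ h2 => omega

theorem W.run {x : Bool → G} {n : ℕ} {α : Bool} {i : ℕ} {g : G}
    (h : W x n α i g) : ∃ g', g = alt (i + 1) (x α) (x (!α)) * g' ∧
      (g' = 1 ∨ ∃ β j, W x n β j g') := by
  induction h with
  | one α => exact ⟨1, by rw [alt_one, mul_one], Or.inl rfl⟩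
  | same α i g hg _ => exact ⟨g, by rw [alt_one], Or.inr ⟨α, i, hg⟩⟩
  | other α i g hg _ ih =>
    obtain ⟨g', h1, h2⟩ := ih
    refine ⟨g', ?_, h2⟩
    rw [alt_succ (i + 1), Bool.not_not, mul_assoc, ← h1]

/-- The alternating word which ends at the right end with a given letter. -/
theorem alt_succ_right (m : ℕ) (a b : G) :
    alt (m + 1) a b = alt m a b * (if Even m then a else b) := by
  unfold alt
  rw [List.range_succ, List.map_append, List.prod_append, List.map_singleton,
    List.prod_singleton]

variable (x : Bool → G) (n : ℕ)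

/-- the normal form predicate -/
def NF (g : G) : Prop :=
  ∃ (k : ℤ) (g₀ : G), g = (alt n (x false) (x true)) ^ k * g₀ ∧ (g₀ = 1 ∨ ∃ α i, W x n α i g₀)

variable (hx : alt n (x false) (x true) = alt n (x true) (x false))
include hx

theorem del_eq (α : Bool) : alt n (x α) (x (!α)) = alt n (x false) (x true) := by
  cases α
  · rfl
  · exact hx.symm

theorem del_comm (α : Bool) : x α * alt n (x false) (x true) =
    alt n (x false) (x true) * x (if Even n then α else !α) := by
  have h1 := alt_succ n (x α) (x (!α))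
  have h2 := alt_succ_right n (x α) (x (!α))
  have h3 := del_eq x n hx (!α)
  rw [Bool.not_not] at h3
  rw [h3] at h1
  rw [del_eq x n hx α] at h2
  rw [← h1, h2]
  split_ifs <;> rfl

theorem del_zpow (k : ℤ) : ∀ α, ∃ β, x α * alt n (x false) (x true) ^ k =
    alt n (x false) (x true) ^ k * x β := by
  have h2 : ∀ α, x α * (alt n (x false) (x true))⁻¹ =
      (alt n (x false) (x true))⁻¹ * x (if Even n then α else !α) := by
    intro α
    have h1 := del_comm x n hx (if Even n then α else !α)
    have h3 : (if Even n then (if Even n then α else !α) else !(if Even n then α else !α)) = α := by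
      split_ifs <;> simp
    rw [h3] at h1
    rw [eq_inv_mul_iff_mul_eq, ← mul_assoc, ← h1, mul_assoc, mul_inv_cancel, mul_one]
  induction k using Int.induction_on with
  | zero => intro α; exact ⟨α, by simp⟩
  | succ k ih =>
    intro α
    obtain ⟨β, hβ⟩ := ih α
    refine ⟨if Even n then β else !β, ?_⟩
    rw [zpow_add_one, ← mul_assoc, hβ, mul_assoc, del_comm x n hx β, ← mul_assoc]
  | pred k ih =>
    intro α
    obtain ⟨β, hβ⟩ := ih α
    refine ⟨if Even n then β else !β, ?_⟩
    rw [zpow_sub_one, ← mul_assoc, hβ, mul_assoc, h2 β, ← mul_assoc]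

theorem NF.mul_left (hn : 2 ≤ n) (α : Bool) (g : G) (hg : NF x n g) : NF x n (x α * g) := by
  obtain ⟨k, g₀, rfl, hg₀⟩ := hg
  obtain ⟨β, hβ⟩ := del_zpow x n hx k α
  rw [← mul_assoc, hβ, mul_assoc]
  rcases hg₀ with rfl | ⟨γ, i, hW⟩
  · exact ⟨k, x β * 1, rfl, Or.inr ⟨β, 0, by rw [mul_one]; exact W.one β⟩⟩
  · by_cases hβγ : β = γ
    · subst hβγ
      exact ⟨k, _, rfl, Or.inr ⟨_, _, W.same _ _ _ hW⟩⟩
    · have hβ' : β = !γ := by
        cases β <;> cases γ <;> simp at hβγ ⊢
      subst hβ'
      by_cases hi : i + 2 < n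
      · exact ⟨k, _, rfl, Or.inr ⟨_, _, W.other _ _ _ hW hi⟩⟩
      · have hi' := hW.lt hn
        obtain ⟨g', hg', hg''⟩ := hW.run
        refine ⟨k + 1, g', ?_, hg''⟩
        have h3 := del_eq x n hx (!γ)
        rw [Bool.not_not] at h3
        rw [zpow_add_one, mul_assoc]
        have e : n = i + 1 + 1 := by omega
        have h4 := alt_succ (i + 1) (x (!γ)) (x γ)
        rw [← e, h3] at h4
        rw [hg', h4, mul_assoc]

theorem NF.alt_left (hn : 2 ≤ n) (j : ℕ) : ∀ (α : Bool) (g : G), NF x n g →
    NF x n (alt j (x α) (x (!α)) * g) := by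
  induction j with
  | zero => intro α g hg; rw [alt_zero, one_mul]; exact hg
  | succ j ih =>
    intro α g hg
    rw [alt_succ, mul_assoc]
    apply NF.mul_left x n hx hn
    have := ih (!α) g hg
    rw [Bool.not_not] at this
    exact this

theorem NF.inv_left (hn : 2 ≤ n) (α : Bool) (g : G) (hg : NF x n g) : NF x n ((x α)⁻¹ * g) := by
  obtain ⟨p, rfl⟩ : ∃ p, n = p + 1 := ⟨n - 1, by omega⟩
  have key : ∃ β, alt (p + 1) (x false) (x true) = alt p (x β) (x (!β)) * x α := by
    by_cases hp : Even p
    · refine ⟨α, ?_⟩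
      have := alt_succ_right p (x α) (x (!α))
      rw [if_pos hp, del_eq x (p + 1) hx] at this
      exact this
    · refine ⟨!α, ?_⟩
      have := alt_succ_right p (x (!α)) (x (! !α))
      rw [if_neg hp, del_eq x (p + 1) hx, Bool.not_not] at this
      rw [Bool.not_not]
      exact this
  obtain ⟨β, hβ⟩ := key
  have h1 : (x α)⁻¹ = (alt (p + 1) (x false) (x true))⁻¹ * alt p (x β) (x (!β)) := by
    rw [hβ, mul_inv_rev, mul_assoc, inv_mul_cancel, mul_one]
  rw [h1, mul_assoc]
  obtain ⟨k, g₀, h2, h3⟩ := NF.alt_left x (p + 1) hx hn p β g hg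
  refine ⟨k - 1, g₀, ?_, h3⟩
  rw [h2, ← mul_assoc, sub_eq_neg_add, zpow_add, zpow_neg, zpow_one]

/-- Every element has a normal form. -/
theorem nf_all (hn : 2 ≤ n) (hgen : Subgroup.closure (Set.range x) = ⊤) (g : G) : NF x n g := by
  have hg : g ∈ Subgroup.closure (Set.range x) := by rw [hgen]; trivial
  induction hg using Subgroup.closure_induction_left with
  | one => exact ⟨0, 1, by simp, Or.inl rfl⟩
  | mul_left y hy z _ hz =>
    obtain ⟨α, rfl⟩ := hy
    exact NF.mul_left x n hx hn α z hz
  | inv_mul_cancel y hy z _ hz =>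
    obtain ⟨α, rfl⟩ := hy
    exact NF.inv_left x n hx hn α z hz

end

end Unf.H27
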