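import Pool.Agent.Helper27_UNF.I2fRep
import Pool.Agent.Helper27_UNF.I2fNf

set_option autoImplicit false

/-!
# Squad UNF, module I2F: folding of dihedral Artin groups into braid groups
-/

namespace Unf.H27

open Art Unf

/-- the angle -/
noncomputable def th (m : ℕ) : ℝ := Real.pi / (m + 2)

theorem th_pos (m : ℕ) : 0 < th m := by
  unfold th
  positivity

theorem th_mul (m : ℕ) : ((m : ℝ) + 2) * th m = Real.pi := by
  unfold th
  field_simp

theorem sin_pos_of {m : ℕ} {c : ℝ} (h1 : 0 < c) (h2 : c < m + 2) : 0 < Real.sin (c * th m) := by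
  apply Real.sin_pos_of_pos_of_lt_pi
  · exact mul_pos h1 (th_pos m)
  · rw [← th_mul m]
    exact mul_lt_mul_of_pos_right h2 (th_pos m)

theorem sin_nonneg_of {m : ℕ} {c : ℝ} (h1 : 0 ≤ c) (h2 : c ≤ m + 2) :
    0 ≤ Real.sin (c * th m) := by
  apply Real.sin_nonneg_of_nonneg_of_le_pi
  · exact mul_nonneg h1 (th_pos m).le
  · rw [← th_mul m]
    exact mul_le_mul_of_nonneg_right h2 (th_pos m).le

theorem sin_top (m : ℕ) : Real.sin (((m : ℝ) + 2) * th m) = 0 := by
  rw [th_mul, Real.sin_pi]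

/-- the eigenvalue -/
noncomputable def lam (m : ℕ) : ℝ := 2 * Real.cos (th m)

theorem lam_pos {m : ℕ} (hm : 1 ≤ m) : 0 < lam m := by
  unfold lam
  have h : 0 < Real.cos (th m) := by
    apply Real.cos_pos_of_mem_Ioo
    constructor
    · have := th_pos m
      have := Real.pi_pos
      linarith
    · unfold th
      have hm' : (1 : ℝ) ≤ m := by exact_mod_cast hm
      apply div_lt_div_of_pos_left Real.pi_pos (by norm_num)
      linarith
  linarith

theorem sin_rec (m : ℕ) (c : ℝ) :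
    Real.sin (c * th m) + Real.sin ((c + 2) * th m) = lam m * Real.sin ((c + 1) * th m) := by
  unfold lam
  rw [show c * th m = (c + 1) * th m - th m by ring, show (c + 2) * th m = (c + 1) * th m + th m by
    ring, Real.sin_sub, Real.sin_add]
  ring

/-- the coefficient -/
def cf (w : ℝ × ℝ) (n : ℕ) : ℝ := if n % 2 = 1 then w.1 else w.2

theorem cf_add_two (w : ℝ × ℝ) (n : ℕ) : cf w (n + 2) = cf w n := by
  unfold cf
  rw [show (n + 2) % 2 = n % 2 by omega]

/-- the invariant plane -/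
noncomputable def pl (m : ℕ) (w : ℝ × ℝ) : ℕ → ℝ :=
  fun n => if n ≤ m + 1 then cf w n * Real.sin (n * th m) else 0

theorem pl_le {m : ℕ} (w : ℝ × ℝ) {n : ℕ} (h : n ≤ m + 1) :
    pl m w n = cf w n * Real.sin (n * th m) := by
  unfold pl
  rw [if_pos h]

theorem pl_le' {m : ℕ} (w : ℝ × ℝ) {n : ℕ} (h : n ≤ m + 2) :
    pl m w n = cf w n * Real.sin (n * th m) := by
  rcases Nat.lt_or_ge (m + 1) n with h1 | h1
  · have h2 : n = m + 2 := by omega
    subst h2
    unfold pl
    rw [if_neg (by omega)]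
    push_cast
    rw [sin_top, mul_zero]
  · exact pl_le w h1

theorem pl_nb {m : ℕ} (w : ℝ × ℝ) {k : ℕ} (h : k ≤ m) :
    pl m w k + pl m w (k + 2) = cf w k * (lam m * Real.sin ((k + 1 : ℕ) * th m)) := by
  rw [pl_le' w (by omega : k ≤ m + 2), pl_le' w (by omega : k + 2 ≤ m + 2), cf_add_two, ← mul_add]
  have h := sin_rec m k
  push_cast
  rw [h]

theorem pl_inj {m : ℕ} (hm : 1 ≤ m) {w w' : ℝ × ℝ} (h : pl m w = pl m w') : w = w' := by
  have hm' : (1 : ℝ) ≤ m := by exact_mod_cast hm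
  have h1 := congrFun h 1
  have h2 := congrFun h 2
  rw [pl_le w (by omega), pl_le w' (by omega)] at h1 h2
  have s1 : 0 < Real.sin ((1 : ℕ) * th m) := by
    push_cast
    exact sin_pos_of (by norm_num) (by linarith)
  have s2 : 0 < Real.sin ((2 : ℕ) * th m) := by
    push_cast
    exact sin_pos_of (by norm_num) (by linarith)
  have e1 := mul_right_cancel₀ s1.ne' h1
  have e2 := mul_right_cancel₀ s2.ne' h2
  simp only [cf, Nat.one_mod, if_true, Nat.mod_self, if_false,
    show ¬ ((0 : ℕ) = 1) by norm_num] at e1 e2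
  exact Prod.ext e1 e2

/-- the value of the product of shears on the plane -/
theorem shm_pl {m i : ℕ} (f : Fin (m + 1) → Multiplicative ℤ) (w : ℝ × ℝ) (k : Fin (m + 1))
    (hk : k.1 % 2 = i) : shm (m + 1) i f (pl m w) (k.1 + 1) =
      (cf w (k.1 + 1) + ((f k).toAdd : ℝ) * eps k.1 * lam m * cf w k.1) *
        Real.sin ((k.1 + 1 : ℕ) * th m) := by
  rw [shm_apply _ _ _ _ _ hk, pl_nb w (by omega), pl_le w (by omega)]
  ring

variable {m : ℕ}

theorem shm_zero (w : ℝ × ℝ) : shm (m + 1) 0 (fun _ => Multiplicative.ofAdd 1) (pl m w) =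
    pl m (w.1 + lam m * w.2, w.2) := by
  funext x
  by_cases hx : ∃ k : Fin (m + 1), k.1 % 2 = 0 ∧ x = k.1 + 1
  · obtain ⟨k, hk, rfl⟩ := hx
    rw [shm_pl _ _ _ hk, pl_le _ (by omega)]
    have h1 : (k.1 + 1) % 2 = 1 := by omega
    have h2 : ¬ (k.1 % 2 = 1) := by omega
    simp only [cf, h1, h2, if_true, if_false, eps, hk, toAdd_ofAdd]
    push_cast
    ring
  · rw [shm_apply' _ _ _ _ _ hx]
    unfold pl
    split_ifs with h
    · rcases Nat.mod_two_eq_zero_or_one x with h0 | h0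
      · have h0' : ¬ (x % 2 = 1) := by omega
        simp only [cf, h0', if_false]
      · exact absurd ⟨⟨x - 1, by omega⟩, by simp only []; omega, by simp only []; omega⟩ hx
    · rfl

theorem shm_onep (w : ℝ × ℝ) : shm (m + 1) 1 (fun _ => Multiplicative.ofAdd 1) (pl m w) =
    pl m (w.1, w.2 - lam m * w.1) := by
  funext x
  by_cases hx : ∃ k : Fin (m + 1), k.1 % 2 = 1 ∧ x = k.1 + 1
  · obtain ⟨k, hk, rfl⟩ := hx
    rw [shm_pl _ _ _ hk, pl_le _ (by omega)]
    have h1 : ¬ ((k.1 + 1) % 2 = 1) := by omega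
    have h2 : ¬ (k.1 % 2 = 0) := by omega
    simp only [cf, h1, if_true, if_false, eps, hk, toAdd_ofAdd, h2,
      show ¬ ((1 : ℕ) = 0) by norm_num]
    push_cast
    ring
  · rw [shm_apply' _ _ _ _ _ hx]
    unfold pl
    split_ifs with h
    · rcases Nat.mod_two_eq_zero_or_one x with h0 | h0
      · rcases Nat.eq_zero_or_pos x with h1 | h1
        · subst h1
          simp
        · exact absurd ⟨⟨x - 1, by omega⟩, by simp only []; omega, by simp only []; omega⟩ hx
      · simp only [cf, h0, if_true]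
    · rfl

/-! ### The action on the plane -/

/-- rotation by a right angle -/
def jj (w : ℝ × ℝ) : ℝ × ℝ := (-w.2, w.1)

/-- the elliptic map -/
noncomputable def UU (m : ℕ) (w : ℝ × ℝ) : ℝ × ℝ := (lam m * w.1 - w.2, w.1)

/-- the first parabolic map -/
noncomputable def SS (m : ℕ) (w : ℝ × ℝ) : ℝ × ℝ := (w.1 + lam m * w.2, w.2)

/-- the second parabolic map -/
noncomputable def TT (m : ℕ) (w : ℝ × ℝ) : ℝ × ℝ := (w.1, w.2 - lam m * w.1)

theorem jj_jj (w : ℝ × ℝ) : jj (jj w) = -w := rfl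

theorem SS_jj (w : ℝ × ℝ) : SS m (jj w) = UU m w := by
  unfold SS jj UU
  ext <;> simp only []
  ring

theorem TT_jj (w : ℝ × ℝ) : TT m (jj w) = jj (SS m w) := by
  unfold SS jj TT
  ext <;> simp only []
  ring

theorem TT_eq (w : ℝ × ℝ) : TT m w = jj (UU m (-w)) := by
  unfold UU jj TT
  ext <;> simp only [Prod.fst_neg, Prod.snd_neg]
  · ring
  · ring

theorem UU_neg (w : ℝ × ℝ) : UU m (-w) = - UU m w := by
  unfold UU
  ext <;> simp only [Prod.fst_neg, Prod.snd_neg]
  ring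

theorem UU_iter_neg (j : ℕ) (w : ℝ × ℝ) : (UU m)^[j] (-w) = - (UU m)^[j] w := by
  induction j with
  | zero => rfl
  | succ j ih => rw [Function.iterate_succ_apply', Function.iterate_succ_apply', ih, UU_neg]

/-- the sectors -/
noncomputable def RR (m : ℕ) (c a b : ℝ) : ℝ × ℝ :=
  (a * Real.sin ((c + 1) * th m) + b * Real.sin ((c + 2) * th m),
    a * Real.sin (c * th m) + b * Real.sin ((c + 1) * th m))

theorem UU_RR (c a b : ℝ) : UU m (RR m c a b) = RR m (c + 1) a b := by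
  unfold UU RR
  have h1 := sin_rec m c
  have h2 := sin_rec m (c + 1)
  rw [show c + 1 + 2 = c + 3 by ring, show c + 1 + 1 = c + 2 by ring] at h2
  ext
  · simp only []
    rw [show c + 1 + 2 = c + 3 by ring, show c + 1 + 1 = c + 2 by ring]
    linear_combination - a * h1 - b * h2
  · simp only []
    rw [show c + 1 + 1 = c + 2 by ring]

theorem UU_iter_RR (j : ℕ) (c a b : ℝ) : (UU m)^[j] (RR m c a b) = RR m (c + j) a b := by
  induction j with
  | zero => simp
  | succ j ih =>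
    rw [Function.iterate_succ_apply', ih, UU_RR]
    push_cast
    rw [add_assoc]

theorem RR_top (c a b : ℝ) : RR m (c + (m + 2 : ℕ)) a b = - RR m c a b := by
  unfold RR
  have h : ∀ d : ℝ, Real.sin ((d + ((m : ℝ) + 2)) * th m) = - Real.sin (d * th m) := by
    intro d
    rw [add_mul, th_mul, Real.sin_add_pi]
  push_cast
  ext
  · simp only [Prod.fst_neg]
    rw [show c + ((m : ℝ) + 2) + 1 = (c + 1) + ((m : ℝ) + 2) by ring,
      show c + ((m : ℝ) + 2) + 2 = (c + 2) + ((m : ℝ) + 2) by ring, h, h]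
    ring
  · simp only [Prod.snd_neg]
    rw [show c + ((m : ℝ) + 2) + 1 = (c + 1) + ((m : ℝ) + 2) by ring, h, h]
    ring

theorem exists_RR (w : ℝ × ℝ) : ∃ a b, w = RR m (-1) a b := by
  have hs : 0 < Real.sin (th m) := by
    have := sin_pos_of (m := m) (c := 1) (by norm_num)
      (by have : (0 : ℝ) ≤ m := Nat.cast_nonneg m; linarith)
    rwa [one_mul] at this
  refine ⟨- w.2 / Real.sin (th m), w.1 / Real.sin (th m), ?_⟩
  unfold RR
  ext
  · simp only []
    rw [show (-1 : ℝ) + 1 = 0 by ring, show (-1 : ℝ) + 2 = 1 by ring, zero_mul, Real.sin_zero,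
      one_mul]
    field_simp
    ring
  · simp only []
    rw [show (-1 : ℝ) + 1 = 0 by ring, zero_mul, Real.sin_zero, neg_one_mul, Real.sin_neg]
    field_simp
    ring

theorem UU_top (w : ℝ × ℝ) : (UU m)^[m + 2] w = -w := by
  obtain ⟨a, b, rfl⟩ := exists_RR (m := m) w
  rw [UU_iter_RR, RR_top]

/-- The sector `k`. -/
def KK (m : ℕ) (k : ℕ) (w : ℝ × ℝ) : Prop :=
  ∃ a b : ℝ, ((0 ≤ a ∧ 0 ≤ b) ∨ (a ≤ 0 ∧ b ≤ 0)) ∧ w = RR m k a b

/-- same sign -/
def SG (w : ℝ × ℝ) : Prop := (0 ≤ w.1 ∧ 0 ≤ w.2) ∨ (w.1 ≤ 0 ∧ w.2 ≤ 0)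

theorem KK_neg {k : ℕ} {w : ℝ × ℝ} (h : KK m k w) : KK m k (-w) := by
  obtain ⟨a, b, h1, rfl⟩ := h
  refine ⟨-a, -b, ?_, ?_⟩
  · rcases h1 with h1 | h1
    · exact Or.inr ⟨neg_nonpos.2 h1.1, neg_nonpos.2 h1.2⟩
    · exact Or.inl ⟨neg_nonneg.2 h1.1, neg_nonneg.2 h1.2⟩
  · unfold RR
    ext
    · simp only [Prod.fst_neg]; ring
    · simp only [Prod.snd_neg]; ring

theorem KK_UU {k : ℕ} {w : ℝ × ℝ} (h : KK m k w) : KK m (k + 1) (UU m w) := by
  obtain ⟨a, b, h1, rfl⟩ := h
  refine ⟨a, b, h1, ?_⟩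
  rw [UU_RR]
  push_cast
  rfl

theorem KK_SG {k : ℕ} {w : ℝ × ℝ} (hk : k + 1 < m + 2) (h : KK m k w) : SG w := by
  obtain ⟨a, b, h1, rfl⟩ := h
  have hk' : (k : ℝ) + 2 ≤ m + 2 := by exact_mod_cast (by omega : k + 2 ≤ m + 2)
  have hk0 : (0 : ℝ) ≤ k := Nat.cast_nonneg k
  have s0 := sin_nonneg_of (m := m) (c := k) (by linarith) (by linarith)
  have s1 := sin_nonneg_of (m := m) (c := k + 1) (by linarith) (by linarith)
  have s2 := sin_nonneg_of (m := m) (c := k + 2) (by linarith) (by linarith)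
  unfold SG RR
  simp only []
  rcases h1 with h1 | h1
  · left
    exact ⟨add_nonneg (mul_nonneg h1.1 s1) (mul_nonneg h1.2 s2),
      add_nonneg (mul_nonneg h1.1 s0) (mul_nonneg h1.2 s1)⟩
  · right
    exact ⟨add_nonpos (mul_nonpos_of_nonpos_of_nonneg h1.1 s1)
      (mul_nonpos_of_nonpos_of_nonneg h1.2 s2),
      add_nonpos (mul_nonpos_of_nonpos_of_nonneg h1.1 s0)
      (mul_nonpos_of_nonpos_of_nonneg h1.2 s1)⟩

theorem KK_SS {w : ℝ × ℝ} (h : SG w) : KK m 0 (SS m w) := by
  have hs : 0 < Real.sin (th m) := by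
    have := sin_pos_of (m := m) (c := 1) (by norm_num)
      (by have : (0 : ℝ) ≤ m := Nat.cast_nonneg m; linarith)
    rwa [one_mul] at this
  refine ⟨w.1 / Real.sin (th m), w.2 / Real.sin (th m), ?_, ?_⟩
  · rcases h with h | h
    · exact Or.inl ⟨div_nonneg h.1 hs.le, div_nonneg h.2 hs.le⟩
    · exact Or.inr ⟨div_nonpos_of_nonpos_of_nonneg h.1 hs.le,
        div_nonpos_of_nonpos_of_nonneg h.2 hs.le⟩
  · unfold RR SS lam
    push_cast
    rw [show (0 : ℝ) + 1 = 1 by ring, show (0 : ℝ) + 2 = 2 by ring, zero_mul, Real.sin_zero,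
      one_mul, Real.sin_two_mul]
    ext
    · simp only []
      field_simp
    · simp only []
      field_simp
      ring

theorem KK_axes (hm : 1 ≤ m) {k : ℕ} (hk : k + 1 < m + 2) (h1 : KK m k (1, 0))
    (h2 : KK m k (0, 1)) : False := by
  have hk' : (k : ℝ) + 2 ≤ m + 2 := by exact_mod_cast (by omega : k + 2 ≤ m + 2)
  have hk0 : (0 : ℝ) ≤ k := Nat.cast_nonneg k
  have s0 := sin_nonneg_of (m := m) (c := k) (by linarith) (by linarith)
  have s1 := sin_pos_of (m := m) (c := k + 1) (by linarith) (by linarith)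
  have s2 := sin_nonneg_of (m := m) (c := k + 2) (by linarith) (by linarith)
  obtain ⟨a, b, hab, e⟩ := h1
  obtain ⟨a', b', hab', e'⟩ := h2
  have e1 := congrArg Prod.fst e
  have e2 := congrArg Prod.snd e
  have e1' := congrArg Prod.fst e'
  have e2' := congrArg Prod.snd e'
  unfold RR at e1 e2 e1' e2'
  simp only [] at e1 e2 e1' e2'
  -- first: `k = 0`
  have hk1 : k = 0 := by
    by_contra hk1
    have hk2 : (0 : ℝ) < k := by exact_mod_cast Nat.pos_of_ne_zero hk1
    have s0' := sin_pos_of (m := m) (c := k) hk2 (by linarith)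
    have hab0 : a * Real.sin (k * th m) = 0 ∧ b * Real.sin ((k + 1) * th m) = 0 := by
      rcases hab with h | h
      · have p1 := mul_nonneg h.1 s0
        have p2 := mul_nonneg h.2 s1.le
        constructor <;> linarith
      · have p1 := mul_nonpos_of_nonpos_of_nonneg h.1 s0
        have p2 := mul_nonpos_of_nonpos_of_nonneg h.2 s1.le
        constructor <;> linarith
    have ha : a = 0 := (mul_eq_zero.1 hab0.1).resolve_right s0'.ne'
    have hb : b = 0 := (mul_eq_zero.1 hab0.2).resolve_right s1.ne'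
    rw [ha, hb] at e1
    norm_num at e1
  have hab0 : a' * Real.sin ((k + 1) * th m) = 0 ∧ b' * Real.sin ((k + 2) * th m) = 0 := by
    rcases hab' with h | h
    · have p1 := mul_nonneg h.1 s1.le
      have p2 := mul_nonneg h.2 s2
      constructor <;> linarith
    · have p1 := mul_nonpos_of_nonpos_of_nonneg h.1 s1.le
      have p2 := mul_nonpos_of_nonpos_of_nonneg h.2 s2
      constructor <;> linarith
  have ha : a' = 0 := (mul_eq_zero.1 hab0.1).resolve_right s1.ne'
  have hm' : (1 : ℝ) ≤ m := by exact_mod_cast hm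
  have s2' : 0 < Real.sin (((k : ℝ) + 2) * th m) := by
    apply sin_pos_of (by linarith)
    rw [hk1]
    push_cast
    linarith
  have hb : b' = 0 := (mul_eq_zero.1 hab0.2).resolve_right s2'.ne'
  rw [ha, hb] at e2'
  norm_num at e2'

/-! ### Ping-pong -/

theorem inv_app {α : Type} (σ : Equiv.Perm α) (y : α) : σ⁻¹ (σ y) = y :=
  Equiv.symm_apply_apply σ y

/-- the four unit vectors -/
def Ax (w : ℝ × ℝ) : Prop := w = (1, 0) ∨ w = (-1, 0) ∨ w = (0, 1) ∨ w = (0, -1)

theorem Ax.neg {w : ℝ × ℝ} (h : Ax w) : Ax (-w) := by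
  rcases h with rfl | rfl | rfl | rfl
  · right; left; ext <;> simp
  · left; ext <;> simp
  · right; right; right; ext <;> simp
  · right; right; left; ext <;> simp

theorem Ax.jj {w : ℝ × ℝ} (h : Ax w) : Ax (jj w) := by
  rcases h with rfl | rfl | rfl | rfl
  · right; right; left; ext <;> simp [H27.jj]
  · right; right; right; ext <;> simp [H27.jj]
  · right; left; ext <;> simp [H27.jj]
  · left; ext <;> simp [H27.jj]

theorem Ax.exists_jj {w : ℝ × ℝ} (h : Ax w) : ∃ w', Ax w' ∧ H27.jj w' = w :=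
  ⟨H27.jj (-w), h.neg.jj, by rw [jj_jj, neg_neg]⟩

theorem Ax.iter {w : ℝ × ℝ} (h : Ax w) (j : ℕ) : Ax (H27.jj^[j] w) := by
  induction j with
  | zero => exact h
  | succ j ih => rw [Function.iterate_succ_apply']; exact ih.jj

theorem Ax.exists_iter {w : ℝ × ℝ} (h : Ax w) (j : ℕ) : ∃ w', Ax w' ∧ H27.jj^[j] w' = w := by
  induction j generalizing w with
  | zero => exact ⟨w, h, rfl⟩
  | succ j ih =>
    obtain ⟨w1, h1, h2⟩ := h.exists_jj
    obtain ⟨w2, h3, h4⟩ := ih h1
    exact ⟨w2, h3, by rw [Function.iterate_succ_apply', h4, h2]⟩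

theorem Ax.sg {w : ℝ × ℝ} (h : Ax w) : SG w := by
  rcases h with rfl | rfl | rfl | rfl
  · left; constructor <;> norm_num
  · right; constructor <;> norm_num
  · left; constructor <;> norm_num
  · right; constructor <;> norm_num

section
variable {G : Type} [Group G] (x : Bool → G) (Θ : G →* Equiv.Perm (ℕ → ℝ))
  (h0 : ∀ w, Θ (x false) (pl m w) = pl m (SS m w))
  (h1 : ∀ w, Θ (x true) (pl m w) = pl m (TT m w))
include h0 h1

theorem act_alt (j : ℕ) : ∀ w, Θ (alt j (x false) (x true)) (pl m (jj^[j] w)) =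
      pl m ((UU m)^[j] w) ∧
    Θ (alt j (x true) (x false)) (pl m (jj^[j + 1] w)) = pl m (jj ((UU m)^[j] w)) := by
  induction j with
  | zero =>
    intro w
    constructor
    · rw [alt_zero, map_one]; rfl
    · rw [alt_zero, map_one]; rfl
  | succ j ih =>
    intro w
    constructor
    · rw [alt_succ, map_mul, Equiv.Perm.mul_apply, (ih w).2, h0, SS_jj,
        Function.iterate_succ_apply']
    · rw [alt_succ, map_mul, Equiv.Perm.mul_apply,
        show jj^[j + 1 + 1] w = jj^[j] (-w) from rfl, (ih (-w)).1, h1, TT_eq, UU_iter_neg, neg_neg,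
        Function.iterate_succ_apply']

theorem act_del (k : ℤ) : ∀ e, Ax e → ∃ e', Ax e' ∧
    Θ (alt (m + 2) (x false) (x true) ^ k) (pl m e) = pl m e' := by
  have hd : ∀ e, Ax e → ∃ e', Ax e' ∧ Θ (alt (m + 2) (x false) (x true)) (pl m e) = pl m e' := by
    intro e he
    obtain ⟨w, hw, rfl⟩ := he.exists_iter (m + 2)
    exact ⟨-w, hw.neg, by rw [(act_alt x Θ h0 h1 (m + 2) w).1, UU_top]⟩
  have hi : ∀ e, Ax e → ∃ e', Ax e' ∧
      Θ ((alt (m + 2) (x false) (x true))⁻¹) (pl m e) = pl m e' := by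
    intro e he
    refine ⟨jj^[m + 2] (-e), he.neg.iter _, ?_⟩
    have := (act_alt x Θ h0 h1 (m + 2) (-e)).1
    rw [UU_top, neg_neg] at this
    rw [map_inv, ← this, inv_app]
  induction k using Int.induction_on with
  | zero => intro e he; exact ⟨e, he, by rw [zpow_zero, map_one]; rfl⟩
  | succ k ih =>
    intro e he
    obtain ⟨e1, he1, h2⟩ := hd e he
    obtain ⟨e2, he2, h3⟩ := ih e1 he1
    exact ⟨e2, he2, by rw [zpow_add_one, map_mul, Equiv.Perm.mul_apply, h2, h3]⟩
  | pred k ih =>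
    intro e he
    obtain ⟨e1, he1, h2⟩ := hi e he
    obtain ⟨e2, he2, h3⟩ := ih e1 he1
    exact ⟨e2, he2, by rw [zpow_sub_one, map_mul, Equiv.Perm.mul_apply, h2, h3]⟩

theorem act_W {α : Bool} {i : ℕ} {g : G} (hg : W x (m + 2) α i g) :
    ∀ e, Ax e → ∃ w, KK m i w ∧ Θ g (pl m e) = pl m (if α then jj w else w) := by
  induction hg with
  | one α =>
    intro e he
    cases α
    · exact ⟨SS m e, KK_SS he.sg, h0 e⟩
    · obtain ⟨w, hw, rfl⟩ := he.exists_jj
      refine ⟨SS m w, KK_SS hw.sg, ?_⟩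
      rw [h1, TT_jj]
      rfl
  | same α i g hg ih =>
    intro e he
    obtain ⟨w, hw, h2⟩ := ih e he
    have hi := hg.lt (by omega)
    refine ⟨SS m w, KK_SS (KK_SG hi hw), ?_⟩
    rw [map_mul, Equiv.Perm.mul_apply, h2]
    cases α
    · exact h0 w
    · show Θ (x true) (pl m (jj w)) = pl m (jj (SS m w))
      rw [h1, TT_jj]
  | other α i g hg hi ih =>
    intro e he
    obtain ⟨w, hw, h2⟩ := ih e he
    rw [map_mul, Equiv.Perm.mul_apply, h2]
    cases α
    · refine ⟨UU m (-w), KK_UU (KK_neg hw), ?_⟩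
      show Θ (x true) (pl m w) = pl m (jj (UU m (-w)))
      rw [h1, TT_eq]
    · refine ⟨UU m w, KK_UU hw, ?_⟩
      show Θ (x false) (pl m (jj w)) = pl m (UU m w)
      rw [h0, SS_jj]

/-- an element which acts trivially is a power of the fundamental element -/
theorem ker_pow (hm : 1 ≤ m) (g : G) (hg : NF x (m + 2) g) (h : Θ g = 1) :
    ∃ k : ℤ, g = alt (m + 2) (x false) (x true) ^ k := by
  obtain ⟨k, g₀, rfl, hg₀⟩ := hg
  rcases hg₀ with rfl | ⟨α, i, hW⟩
  · exact ⟨k, by rw [mul_one]⟩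
  · exfalso
    have key : ∀ e, Ax e → ∃ w, KK m i w ∧ e = (if α then jj w else w) := by
      intro e he
      obtain ⟨e', he', h2⟩ := act_del x Θ h0 h1 k e he
      obtain ⟨w, hw, h3⟩ := act_W x Θ h0 h1 hW e' he'
      refine ⟨w, hw, pl_inj hm ?_⟩
      rw [← h3, ← h2, ← Equiv.Perm.mul_apply, ← map_mul]
      have h4 : Θ (g₀ * alt (m + 2) (x false) (x true) ^ k) = 1 := by
        rw [map_mul, ← inv_eq_iff_mul_eq_one]
        rw [map_mul] at h
        rw [inv_eq_of_mul_eq_one_left h]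
      rw [h4]
      rfl
    have hi := hW.lt (by omega)
    obtain ⟨w1, hw1, e1⟩ := key (1, 0) (Or.inl rfl)
    obtain ⟨w2, hw2, e2⟩ := key (0, 1) (Or.inr (Or.inr (Or.inl rfl)))
    cases α
    · change (1, 0) = w1 at e1
      change (0, 1) = w2 at e2
      subst e1
      subst e2
      exact KK_axes hm hi hw1 hw2
    · change (1, 0) = jj w1 at e1
      change (0, 1) = jj w2 at e2
      have e1' : -w1 = (0, 1) := by
        rw [← jj_jj, ← e1]
        ext <;> simp [jj]
      have e2' : w2 = (1, 0) := by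
        have f1 := congrArg Prod.fst e2
        have f2 := congrArg Prod.snd e2
        simp only [jj] at f1 f2
        ext
        · exact f2.symm
        · simp only []
          linarith
      refine KK_axes hm hi ?_ ?_
      · rw [← e2']; exact hw2
      · rw [← e1']; exact KK_neg hw1

end

/-! ### The theorem -/

theorem key_pow (hm : 1 ≤ m) {i : ℕ} (hi : i < 2) (f : Fin (m + 1) → Multiplicative ℤ)
    (w₀ w' : ℝ × ℝ) (hw : cf w₀ (i + 1) = 0) (hw' : cf w₀ i = 1)
    (h : ∀ k : Fin (m + 1), k.1 % 2 = i →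
      shm (m + 1) i f (pl m w₀) (k.1 + 1) = pl m w' (k.1 + 1)) :
    ∃ l : ℤ, ∀ k : Fin (m + 1), k.1 % 2 = i → f k = Multiplicative.ofAdd l := by
  have key : ∀ k : Fin (m + 1), k.1 % 2 = i →
      ((f k).toAdd : ℝ) * (eps i * lam m) = cf w' (i + 1) := by
    intro k hk
    have h1 := h k hk
    have hkm : (k.1 : ℝ) + 1 < m + 2 := by
      have := k.2
      exact_mod_cast (by omega : k.1 + 1 < m + 2)
    have hs : 0 < Real.sin ((k.1 + 1 : ℕ) * th m) := by
      push_cast
      exact sin_pos_of (by positivity) hkm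
    rw [shm_pl _ _ _ hk, pl_le _ (by omega)] at h1
    have h2 := mul_right_cancel₀ hs.ne' h1
    have e1 : cf w₀ (k.1 + 1) = 0 := by
      rw [← hw]
      unfold cf
      rw [show (k.1 + 1) % 2 = (i + 1) % 2 by omega]
    have e2 : cf w₀ k.1 = 1 := by
      rw [← hw']
      unfold cf
      rw [show k.1 % 2 = i % 2 by omega]
    have e3 : cf w' (k.1 + 1) = cf w' (i + 1) := by
      unfold cf
      rw [show (k.1 + 1) % 2 = (i + 1) % 2 by omega]
    have e4 : eps k.1 = eps i := by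
      unfold eps
      rw [show k.1 % 2 = i % 2 by omega]
    rw [e1, e2, e3, e4] at h2
    rw [← h2]
    ring
  have hne : eps i * lam m ≠ 0 := by
    apply mul_ne_zero
    · intro h0
      have := eps_sq i
      rw [h0] at this
      norm_num at this
    · exact (lam_pos hm).ne'
  refine ⟨(f ⟨i, by omega⟩).toAdd, fun k hk => ?_⟩
  have h1 := key k hk
  have h2 := key ⟨i, by omega⟩ (Nat.mod_eq_of_lt hi)
  have h3 := mul_right_cancel₀ hne (h1.trans h2.symm)
  have h4 : (f k).toAdd = (f ⟨i, by omega⟩).toAdd := by exact_mod_cast h3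
  rw [← h4, ofAdd_toAdd]

theorem EE_congr (n i : ℕ) (f g : Fin n → Multiplicative ℤ)
    (h : ∀ k : Fin n, k.1 % 2 = i → f k = g k) : EE n i f = EE n i g := by
  unfold EE
  rw [MonoidHom.noncommPiCoprod_apply, MonoidHom.noncommPiCoprod_apply]
  apply Finset.noncommProd_congr rfl
  intro k _
  unfold phi
  split_ifs with hk
  · rw [h k hk]
  · rfl

theorem EE_const (n i : ℕ) (l : ℤ) : EE n i (fun _ => Multiplicative.ofAdd l) =
    EE n i (fun _ => Multiplicative.ofAdd 1) ^ l := by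
  rw [← map_zpow]
  apply congrArg
  funext k
  rw [Pi.pow_apply, ← ofAdd_zsmul, smul_eq_mul, mul_one]

/-- the generators, indexed by booleans -/
def xx (m : ℕ) (α : Bool) : Gp (CoxeterMatrix.I m) := if α then gen _ 1 else gen _ 0

theorem closure_xx (m : ℕ) : Subgroup.closure (Set.range (xx m)) = ⊤ := by
  rw [← closure_gen (CoxeterMatrix.I m)]
  apply congrArg
  ext g
  constructor
  · rintro ⟨α, rfl⟩
    cases α
    · exact ⟨0, rfl⟩
    · exact ⟨1, rfl⟩
  · rintro ⟨i, rfl⟩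
    fin_cases i
    · exact ⟨false, rfl⟩
    · exact ⟨true, rfl⟩

/-- I2F -/
theorem i2f : I2fStmt := by
  intro m fold hm hfold
  obtain ⟨Φ, hΦ⟩ := exists_rep (m + 1)
  obtain ⟨χ, hχ⟩ := exists_exp (m + 1)
  have hfE : ∀ i : Fin 2, fold (gen _ i) = EE (m + 1) i.1 (fun _ => Multiplicative.ofAdd 1) := by
    intro i
    rw [hfold i]
    exact fold_EE (m + 1) i.1
  have hΦE : ∀ i f v, Φ (EE (m + 1) i f) v = shm (m + 1) i f v := by
    intro i f v
    rw [← Shm_apply, ← rep_EE (m + 1) i Φ hΦ]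
    rfl
  have h0 : ∀ w, (Φ.comp fold) (xx m false) (pl m w) = pl m (SS m w) := by
    intro w
    show Φ (fold (gen _ 0)) (pl m w) = _
    rw [hfE 0, hΦE]
    exact shm_zero w
  have h1 : ∀ w, (Φ.comp fold) (xx m true) (pl m w) = pl m (TT m w) := by
    intro w
    show Φ (fold (gen _ 1)) (pl m w) = _
    rw [hfE 1, hΦE]
    exact shm_onep w
  have hx : alt (m + 2) (xx m false) (xx m true) = alt (m + 2) (xx m true) (xx m false) :=
    relHolds (CoxeterMatrix.I m) 0 1 (Nat.succ_ne_zero (m + 1))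
  have hnf := nf_all (xx m) (m + 2) hx (by omega) (closure_xx m)
  -- the exponent sum
  have hlen : ∀ L : List (Fin (m + 1)), χ ((L.map (gen _)).prod) =
      Multiplicative.ofAdd (L.length : ℤ) := by
    intro L
    induction L with
    | nil => simp
    | cons a L ih =>
      rw [List.map_cons, List.prod_cons, map_mul, ih, hχ, ← ofAdd_add, List.length_cons]
      apply congrArg
      push_cast
      ring
  have hpos : ∀ i : Fin 2, ∃ c : ℤ, 1 ≤ c ∧ χ (fold (gen _ i)) = Multiplicative.ofAdd c := by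
    intro i
    refine ⟨_, ?_, by rw [hfold i, hlen]⟩
    have : (⟨i.1, by omega⟩ : Fin (m + 1)) ∈
        (List.finRange (m + 1)).filter (fun k => k.1 % 2 = i.1) := by
      rw [List.mem_filter]
      refine ⟨List.mem_finRange _, ?_⟩
      have : i.1 % 2 = i.1 := Nat.mod_eq_of_lt i.2
      simpa using this
    have := List.length_pos_of_mem this
    exact_mod_cast this
  have hpos' : ∀ α : Bool, ∃ c : ℤ, 1 ≤ c ∧ χ (fold (xx m α)) = Multiplicative.ofAdd c := by
    intro α
    cases α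
    · exact hpos 0
    · exact hpos 1
  have halt : ∀ (j : ℕ) (α : Bool), ∃ c : ℤ, j ≤ c ∧
      χ (fold (alt j (xx m α) (xx m (!α)))) = Multiplicative.ofAdd c := by
    intro j
    induction j with
    | zero => intro α; exact ⟨0, by simp, by rw [alt_zero, map_one, map_one]; rfl⟩
    | succ j ih =>
      intro α
      obtain ⟨c, hc, h2⟩ := ih (!α)
      rw [Bool.not_not] at h2
      obtain ⟨d, hd, h3⟩ := hpos' α
      refine ⟨d + c, by push_cast; linarith, ?_⟩
      rw [alt_succ, map_mul, map_mul, h2, h3, ← ofAdd_add]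
  have inj : ∀ g, fold g = 1 → g = 1 := by
    intro g hg
    obtain ⟨k, hk⟩ := ker_pow (xx m) (Φ.comp fold) h0 h1 hm g (hnf g)
      (by rw [MonoidHom.comp_apply, hg, map_one])
    obtain ⟨c, hc, h2⟩ := halt (m + 2) false
    have h3 : χ (fold g) = 1 := by rw [hg, map_one]
    rw [hk, map_zpow, map_zpow] at h3
    change χ (fold (alt (m + 2) (xx m false) (xx m true))) = _ at h2
    rw [h2, ← ofAdd_zsmul, ← ofAdd_zero] at h3
    have h4 := Multiplicative.ofAdd.injective h3
    rw [smul_eq_mul] at h4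
    have hc' : c ≠ 0 := by
      have : (1 : ℤ) ≤ c := le_trans (by push_cast; omega) hc
      omega
    have h5 : k = 0 := (mul_eq_zero.1 h4).resolve_right hc'
    rw [hk, h5, zpow_zero]
  have inj' : ∀ a b, fold a = fold b → a = b := by
    intro a b hab
    have := inj (a * b⁻¹) (by rw [map_mul, map_inv, hab, mul_inv_cancel])
    exact mul_inv_eq_one.1 this
  -- the plane
  have plane : ∀ a, (∀ w, ∃ w', Φ (fold a) (pl m w) = pl m w') ∧
      (∀ w, ∃ w', Φ (fold a) (pl m w') = pl m w) := by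
    intro a
    have ha : a ∈ Subgroup.closure (Set.range (xx m)) := by rw [closure_xx]; trivial
    induction ha using Subgroup.closure_induction with
    | mem y hy =>
      obtain ⟨α, rfl⟩ := hy
      cases α
      · refine ⟨fun w => ⟨_, h0 w⟩, fun w => ⟨(w.1 - lam m * w.2, w.2), (h0 _).trans ?_⟩⟩
        apply congrArg
        unfold SS
        ext
        · simp only []; ring
        · rfl
      · refine ⟨fun w => ⟨_, h1 w⟩, fun w => ⟨(w.1, w.2 + lam m * w.1), (h1 _).trans ?_⟩⟩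
        apply congrArg
        unfold TT
        ext
        · rfl
        · simp only []; ring
    | one => exact ⟨fun w => ⟨w, by rw [map_one, map_one]; rfl⟩,
        fun w => ⟨w, by rw [map_one, map_one]; rfl⟩⟩
    | mul y z _ _ hy hz =>
      constructor
      · intro w
        obtain ⟨w1, e1⟩ := hz.1 w
        obtain ⟨w2, e2⟩ := hy.1 w1
        exact ⟨w2, by rw [map_mul, map_mul, Equiv.Perm.mul_apply, e1, e2]⟩
      · intro w
        obtain ⟨w1, e1⟩ := hy.2 w
        obtain ⟨w2, e2⟩ := hz.2 w1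
        exact ⟨w2, by rw [map_mul, map_mul, Equiv.Perm.mul_apply, e2, e1]⟩
    | inv y _ hy =>
      constructor
      · intro w
        obtain ⟨w1, e1⟩ := hy.2 w
        exact ⟨w1, by rw [map_inv, map_inv, ← e1, inv_app]⟩
      · intro w
        obtain ⟨w1, e1⟩ := hy.1 w
        exact ⟨w1, by rw [map_inv, map_inv, ← e1, inv_app]⟩
  -- a single parity
  have single : ∀ (i : Fin 2) (f : Fin (m + 1) → Multiplicative ℤ) (w₀ w' : ℝ × ℝ),
      cf w₀ (i.1 + 1) = 0 → cf w₀ i.1 = 1 →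
      (∀ k : Fin (m + 1), k.1 % 2 = i.1 →
        shm (m + 1) i.1 f (pl m w₀) (k.1 + 1) = pl m w' (k.1 + 1)) →
      ∃ l : ℤ, EE (m + 1) i.1 f = fold (gen _ i ^ l) := by
    intro i f w₀ w' hw hw' h
    obtain ⟨l, hl⟩ := key_pow hm i.2 f w₀ w' hw hw' h
    refine ⟨l, ?_⟩
    rw [EE_congr (m + 1) i.1 f _ hl, EE_const, ← hfE i, map_zpow]
  have part1 : ∀ (a : Gp (CoxeterMatrix.I m)) (i : Fin 2),
      fold a ∈ P (CoxeterMatrix.A (m + 1)) {k | k.1 % 2 = i.1} → ∃ p : ℤ, a = gen _ i ^ p := by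
    intro a i ha
    obtain ⟨f, hf⟩ := P_le (m + 1) i.1 _ ha
    have hw0 : ∃ w₀ : ℝ × ℝ, cf w₀ (i.1 + 1) = 0 ∧ cf w₀ i.1 = 1 := by
      fin_cases i
      · exact ⟨(0, 1), by simp [cf], by simp [cf]⟩
      · exact ⟨(1, 0), by simp [cf], by simp [cf]⟩
    obtain ⟨w₀, hw1, hw2⟩ := hw0
    obtain ⟨w', hw'⟩ := (plane a).1 w₀
    obtain ⟨l, hl⟩ := single i f w₀ w' hw1 hw2 (by
      intro k _
      rw [← hΦE, hf, hw'])
    exact ⟨l, inj' _ _ (by rw [← hf, hl])⟩
  intro a
  refine ⟨part1 a, ?_⟩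
  rintro ⟨b, hb, c, hc, hbc⟩
  obtain ⟨f, hf⟩ := P_le (m + 1) 1 _ hb
  obtain ⟨g, hg⟩ := P_le (m + 1) 0 _ hc
  obtain ⟨w', hw'⟩ := (plane a).1 (0, 1)
  obtain ⟨q, hq⟩ := single 0 g (0, 1) w' (by simp [cf]) (by simp [cf]) (by
    intro k hk
    have hk' : k.1 % 2 = 0 := hk
    have hv : Φ (fold a) (pl m (0, 1)) (k.1 + 1) = shm (m + 1) 0 g (pl m (0, 1)) (k.1 + 1) := by
      rw [hbc, map_mul, Equiv.Perm.mul_apply, ← hg, hΦE, ← hf, hΦE]
      apply shm_apply'
      rintro ⟨l, hl, h⟩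
      omega
    rw [← hw', hv]
    rfl)
  have hq' : c = fold (gen _ 0 ^ q) := by rw [← hg]; exact hq
  obtain ⟨p, hp⟩ := part1 (a * (gen _ 0 ^ q)⁻¹) 1 (by
    rw [map_mul, map_inv, hbc, hq', mul_assoc, mul_inv_cancel, mul_one]
    exact hb)
  exact ⟨p, q, by rw [← hp, mul_assoc, inv_mul_cancel, mul_one]⟩

end Unf.H27
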