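import Pool.Agent.Helper12_UNF.Stmts2

set_option autoImplicit false

/-!
# Squad UNF, module I2F, part 1: a symplectic representation of the braid group
-/

namespace Unf.H27

open Art Unf

/-- signs -/
def eps (k : ℕ) : ℝ := if k % 2 = 0 then 1 else -1

/-- shear -/
def shf (k : ℕ) (c : ℝ) (v : ℕ → ℝ) : ℕ → ℝ :=
  fun n => if n = k + 1 then v n + c * eps k * (v k + v (k + 2)) else v n

theorem shf_shf (k : ℕ) (c d : ℝ) (v : ℕ → ℝ) : shf k c (shf k d v) = shf k (c + d) v := by
  funext n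
  unfold shf
  by_cases h : n = k + 1
  · subst h
    simp only [if_true, Nat.left_eq_add, one_ne_zero, if_false,
      show ¬ (k + 2 = k + 1) by omega]
    ring
  · simp only [h, if_false]

theorem shf_zero (k : ℕ) (v : ℕ → ℝ) : shf k 0 v = v := by
  funext n
  unfold shf
  by_cases h : n = k + 1
  · simp only [h, if_true]; ring
  · simp only [h, if_false]

/-- the shear as a permutation -/
def sh (k : ℕ) (c : ℝ) : Equiv.Perm (ℕ → ℝ) where
  toFun := shf k c
  invFun := shf k (-c)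
  left_inv v := by rw [shf_shf, neg_add_cancel, shf_zero]
  right_inv v := by rw [shf_shf, add_neg_cancel, shf_zero]

theorem sh_apply (k : ℕ) (c : ℝ) (v : ℕ → ℝ) (n : ℕ) :
    sh k c v n = if n = k + 1 then v n + c * eps k * (v k + v (k + 2)) else v n := rfl

theorem eps_succ (k : ℕ) : eps (k + 1) = - eps k := by
  unfold eps
  rcases Nat.mod_two_eq_zero_or_one k with h | h
  · rw [if_neg (by omega), if_pos h]
  · rw [if_pos (by omega), if_neg (by omega)]; norm_num

theorem eps_sq (k : ℕ) : eps k * eps k = 1 := by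
  unfold eps
  split_ifs <;> norm_num

theorem sh_braid (k : ℕ) : sh k 1 * sh (k + 1) 1 * sh k 1 = sh (k + 1) 1 * sh k 1 * sh (k + 1) 1 := by
  apply Equiv.ext
  intro v
  funext n
  have e1 := eps_succ k
  have e2 := eps_sq k
  show sh k 1 (sh (k + 1) 1 (sh k 1 v)) n = sh (k + 1) 1 (sh k 1 (sh (k + 1) 1 v)) n
  by_cases h1 : n = k + 1
  · subst h1
    simp only [sh_apply, if_true, show ¬ (k = k + 1) by omega,
      show ¬ (k + 2 = k + 1) by omega, show ¬ (k = k + 1 + 1) by omega, if_false,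
      show k + 2 = k + 1 + 1 by omega, show ¬ (k + 1 = k + 1 + 1) by omega,
      show ¬ (k + 1 + 2 = k + 1) by omega]
    rw [e1]
    linear_combination (-(v k + v (k + 1 + 1)) * eps k) * e2
  · by_cases h2 : n = k + 1 + 1
    · subst h2
      simp only [sh_apply, if_true, show ¬ (k = k + 1) by omega,
        show ¬ (k + 2 = k + 1) by omega, show ¬ (k = k + 1 + 1) by omega, if_false,
        show k + 2 = k + 1 + 1 by omega, show ¬ (k + 1 = k + 1 + 1) by omega,
        show ¬ (k + 1 + 2 = k + 1) by omega,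
        show ¬ (k + 1 + 2 = k + 1 + 1) by omega]
      rw [e1]
      linear_combination (-(v (k + 1) + v (k + 1 + 2)) * eps k) * e2
    · simp only [sh_apply, h1, h2, if_false]

theorem sh_comm (j k : ℕ) (c d : ℝ) (h1 : j ≠ k) (h2 : j + 1 ≠ k) (h3 : k + 1 ≠ j) :
    sh j c * sh k d = sh k d * sh j c := by
  apply Equiv.ext
  intro v
  funext n
  show sh j c (sh k d v) n = sh k d (sh j c v) n
  by_cases hn : n = j + 1
  · subst hn
    simp only [sh_apply, if_true, show ¬ (j + 1 = k + 1) by omega, if_false,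
      show ¬ (j = k + 1) by omega, show ¬ (j + 2 = k + 1) by omega]
  · by_cases hn' : n = k + 1
    · subst hn'
      simp only [sh_apply, if_true, show ¬ (k + 1 = j + 1) by omega, if_false,
        show ¬ (k = j + 1) by omega, show ¬ (k + 2 = j + 1) by omega]
    · simp only [sh_apply, hn, hn', if_false]

theorem A_apply (n : ℕ) (i j : Fin n) : (CoxeterMatrix.A n).M i j =
    if i = j then 1 else (if (j : ℕ) + 1 = i ∨ (i : ℕ) + 1 = j then 3 else 2) := rfl

theorem alt_three {G : Type} [Monoid G] (a b : G) : alt 3 a b = a * b * a := by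
  rw [show 3 = 2 * 1 + 1 by rfl, alt_two_mul_add_one, pow_one]

/-- the representation -/
theorem exists_rep (n : ℕ) : ∃ Φ : Gp (CoxeterMatrix.A n) →* Equiv.Perm (ℕ → ℝ),
    ∀ k : Fin n, Φ (gen _ k) = sh k.1 1 := by
  apply lift
  intro s t _
  rw [A_apply]
  split_ifs with h1 h2
  · rw [h1]
  · rw [alt_three, alt_three]
    rcases h2 with h2 | h2
    · rw [← h2]; exact (sh_braid t.1).symm
    · rw [← h2]; exact sh_braid s.1
  · rw [alt_two, alt_two]
    push Not at h2
    exact sh_comm _ _ _ _ (fun h => h1 (Fin.ext h)) h2.2 h2.1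

/-- the exponent sum -/
theorem exists_exp (n : ℕ) : ∃ χ : Gp (CoxeterMatrix.A n) →* Multiplicative ℤ,
    ∀ k : Fin n, χ (gen _ k) = Multiplicative.ofAdd 1 := by
  apply lift
  intro s t _
  rfl

/-- the homomorphisms of the factors -/
noncomputable def phi (n i : ℕ) (k : Fin n) : Multiplicative ℤ →* Gp (CoxeterMatrix.A n) :=
  if k.1 % 2 = i then zpowersHom _ (gen _ k) else 1

theorem gen_comm {n : ℕ} (k l : Fin n) (h1 : k ≠ l) (h2 : k.1 + 1 ≠ l.1) (h3 : l.1 + 1 ≠ k.1) :
    Commute (gen (CoxeterMatrix.A n) k) (gen (CoxeterMatrix.A n) l) := by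
  have h : (CoxeterMatrix.A n).M k l = 2 := by
    rw [A_apply, if_neg h1, if_neg]
    push Not
    exact ⟨h3, h2⟩
  have := relHolds (CoxeterMatrix.A n) k l (by rw [h]; norm_num)
  rw [h, alt_two, alt_two] at this
  exact this

theorem phi_comm (n i : ℕ) : Pairwise fun k l => ∀ x y, Commute (phi n i k x) (phi n i l y) := by
  intro k l hkl x y
  unfold phi
  split_ifs with h1 h2 h2
  · rw [zpowersHom_apply, zpowersHom_apply]
    exact (gen_comm k l hkl (by omega) (by omega)).zpow_zpow _ _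
  · exact Commute.one_right _
  · exact Commute.one_left _
  · exact Commute.one_left _

/-- the product homomorphism -/
noncomputable def EE (n i : ℕ) : (Fin n → Multiplicative ℤ) →* Gp (CoxeterMatrix.A n) :=
  MonoidHom.noncommPiCoprod (phi n i) (phi_comm n i)

theorem EE_single (n i : ℕ) (k : Fin n) (x : Multiplicative ℤ) :
    EE n i (Pi.mulSingle k x) = phi n i k x := by
  classical
  unfold EE
  rw [MonoidHom.noncommPiCoprod_mulSingle]

/-- the formula for the product of shears -/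
noncomputable def shm (n i : ℕ) (f : Fin n → Multiplicative ℤ) (v : ℕ → ℝ) : ℕ → ℝ :=
  fun x => if h : ∃ k : Fin n, k.1 % 2 = i ∧ x = k.1 + 1 then
    v x + ((f h.choose).toAdd : ℝ) * eps (x - 1) * (v (x - 1) + v (x + 1)) else v x

theorem shm_apply (n i : ℕ) (f : Fin n → Multiplicative ℤ) (v : ℕ → ℝ) (k : Fin n)
    (hk : k.1 % 2 = i) : shm n i f v (k.1 + 1) =
      v (k.1 + 1) + ((f k).toAdd : ℝ) * eps k.1 * (v k.1 + v (k.1 + 2)) := by
  unfold shm
  have h : ∃ k' : Fin n, k'.1 % 2 = i ∧ k.1 + 1 = k'.1 + 1 := ⟨k, hk, rfl⟩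
  rw [dif_pos h]
  have hc : h.choose = k := by
    have := h.choose_spec.2
    apply Fin.ext
    omega
  rw [hc]
  rfl

theorem shm_apply' (n i : ℕ) (f : Fin n → Multiplicative ℤ) (v : ℕ → ℝ) (x : ℕ)
    (hx : ¬ ∃ k : Fin n, k.1 % 2 = i ∧ x = k.1 + 1) : shm n i f v x = v x := by
  unfold shm
  rw [dif_neg hx]

theorem shm_mul (n i : ℕ) (f g : Fin n → Multiplicative ℤ) (v : ℕ → ℝ) :
    shm n i (f * g) v = shm n i f (shm n i g v) := by
  funext x
  by_cases hx : ∃ k : Fin n, k.1 % 2 = i ∧ x = k.1 + 1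
  · obtain ⟨k, hk, rfl⟩ := hx
    rw [shm_apply _ _ _ _ _ hk, shm_apply _ _ _ _ _ hk, shm_apply _ _ _ _ _ hk,
      shm_apply' _ _ _ _ k.1, shm_apply' _ _ _ _ (k.1 + 2), Pi.mul_apply, toAdd_mul]
    · push_cast; ring
    · rintro ⟨l, hl, h⟩; omega
    · rintro ⟨l, hl, h⟩; omega
  · rw [shm_apply' _ _ _ _ _ hx, shm_apply' _ _ _ _ _ hx, shm_apply' _ _ _ _ _ hx]

theorem shm_one (n i : ℕ) (v : ℕ → ℝ) : shm n i 1 v = v := by
  funext x
  by_cases hx : ∃ k : Fin n, k.1 % 2 = i ∧ x = k.1 + 1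
  · obtain ⟨k, hk, rfl⟩ := hx
    rw [shm_apply _ _ _ _ _ hk]
    simp
  · rw [shm_apply' _ _ _ _ _ hx]

/-- as a homomorphism -/
noncomputable def Shm (n i : ℕ) : (Fin n → Multiplicative ℤ) →* Equiv.Perm (ℕ → ℝ) where
  toFun f :=
    { toFun := shm n i f
      invFun := shm n i f⁻¹
      left_inv := fun v => by rw [← shm_mul, inv_mul_cancel, shm_one]
      right_inv := fun v => by rw [← shm_mul, mul_inv_cancel, shm_one] }
  map_one' := Equiv.ext fun v => shm_one n i v
  map_mul' f g := Equiv.ext fun v => shm_mul n i f g v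

theorem Shm_apply (n i : ℕ) (f : Fin n → Multiplicative ℤ) (v : ℕ → ℝ) :
    Shm n i f v = shm n i f v := rfl

theorem Shm_single (n i : ℕ) (k : Fin n) (hk : k.1 % 2 = i) :
    Shm n i (Pi.mulSingle k (Multiplicative.ofAdd 1)) = sh k.1 1 := by
  classical
  apply Equiv.ext
  intro v
  rw [Shm_apply]
  funext x
  by_cases hx : ∃ k : Fin n, k.1 % 2 = i ∧ x = k.1 + 1
  · obtain ⟨l, hl, rfl⟩ := hx
    rw [shm_apply _ _ _ _ _ hl, sh_apply]
    by_cases hkl : l = k
    · subst hkl
      rw [if_pos rfl, Pi.mulSingle_eq_same]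
      simp
    · rw [if_neg (by intro h; exact hkl (Fin.ext (by omega))), Pi.mulSingle_eq_of_ne hkl]
      simp
  · rw [shm_apply' _ _ _ _ _ hx, sh_apply, if_neg]
    rintro rfl
    exact hx ⟨k, hk, rfl⟩

theorem Shm_single' (n i : ℕ) (k : Fin n) (hk : ¬ k.1 % 2 = i) (y : Multiplicative ℤ) :
    Shm n i (Pi.mulSingle k y) = 1 := by
  classical
  apply Equiv.ext
  intro v
  rw [Shm_apply]
  funext x
  by_cases hx : ∃ k : Fin n, k.1 % 2 = i ∧ x = k.1 + 1
  · obtain ⟨l, hl, rfl⟩ := hx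
    rw [shm_apply _ _ _ _ _ hl, Pi.mulSingle_eq_of_ne (by rintro rfl; exact hk hl)]
    simp
  · rw [shm_apply' _ _ _ _ _ hx]
    rfl

theorem rep_EE (n i : ℕ) (Φ : Gp (CoxeterMatrix.A n) →* Equiv.Perm (ℕ → ℝ))
    (hΦ : ∀ k : Fin n, Φ (gen _ k) = sh k.1 1) : Φ.comp (EE n i) = Shm n i := by
  classical
  apply MonoidHom.pi_ext
  intro k x
  rw [MonoidHom.comp_apply, EE_single]
  unfold phi
  split_ifs with hk
  · have h : Multiplicative.ofAdd (1 : ℤ) ^ x.toAdd = x := by
      rw [← ofAdd_zsmul, smul_eq_mul, mul_one, ofAdd_toAdd]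
    rw [zpowersHom_apply, map_zpow, hΦ, ← Shm_single n i k hk, ← map_zpow, ← Pi.mulSingle_zpow, h]
  · rw [Shm_single' n i k hk, MonoidHom.one_apply, map_one]

theorem P_le (n i : ℕ) (c : Gp (CoxeterMatrix.A n)) (hc : c ∈ P (CoxeterMatrix.A n) {k | k.1 % 2 = i}) :
    ∃ f, EE n i f = c := by
  have : P (CoxeterMatrix.A n) {k | k.1 % 2 = i} ≤ (EE n i).range := by
    unfold P
    rw [Subgroup.closure_le]
    rintro _ ⟨k, hk, rfl⟩
    refine ⟨Pi.mulSingle k (Multiplicative.ofAdd 1), ?_⟩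
    rw [EE_single]
    unfold phi
    rw [if_pos (show k.1 % 2 = i from hk), zpowersHom_apply, toAdd_ofAdd, zpow_one]
  exact this hc

theorem list_EE (n i : ℕ) (L : List (Fin n)) :
    ((L.filter (fun k => k.1 % 2 = i)).map (gen (CoxeterMatrix.A n))).prod =
      EE n i (L.map (fun k => Pi.mulSingle k (Multiplicative.ofAdd (1 : ℤ)))).prod := by
  classical
  induction L with
  | nil => simp
  | cons a L ih =>
    rw [List.map_cons, List.prod_cons, map_mul, EE_single, ← ih]
    unfold phi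
    by_cases ha : a.1 % 2 = i
    · rw [List.filter_cons_of_pos (by simpa using ha), List.map_cons, List.prod_cons, if_pos ha,
        zpowersHom_apply, toAdd_ofAdd, zpow_one]
    · rw [List.filter_cons_of_neg (by simpa using ha), if_neg ha, MonoidHom.one_apply, one_mul]

theorem list_single (n : ℕ) :
    ((List.finRange n).map (fun k => Pi.mulSingle k (Multiplicative.ofAdd (1 : ℤ)))).prod =
      (fun _ => Multiplicative.ofAdd (1 : ℤ) : Fin n → Multiplicative ℤ) := by
  classical
  rw [← List.ofFn_eq_map, List.prod_ofFn, Finset.univ_prod_mulSingle]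

/-- the product of all generators of one parity -/
theorem fold_EE (n i : ℕ) :
    (((List.finRange n).filter (fun k => k.1 % 2 = i)).map (gen (CoxeterMatrix.A n))).prod =
      EE n i (fun _ => Multiplicative.ofAdd 1) := by
  rw [list_EE, list_single]

end Unf.H27
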