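import Pool.Agent.Helper12_UNF.Stmts

set_option autoImplicit false

/-!
# Squad UNF, module RFP: products of Artin groups
-/

namespace Unf.H27

open Art Unf

theorem rf_of_inj {G H : Type} [Group G] [Group H] (φ : G →* H) (hφ : Function.Injective φ)
    (h : RF H) : RF G := by
  have h' := Group.residuallyFinite_iff_forall_finiteIndexNormalSubgroup.1 h
  refine Group.residuallyFinite_iff_forall_finiteIndexNormalSubgroup.2 ?_
  intro g hg
  apply hφ
  rw [map_one]
  apply h'
  intro N
  exact hg (N.comap φ)

theorem rf_pi {ι : Type} (G : ι → Type) [∀ i, Group (G i)] (h : ∀ i, RF (G i)) :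
    RF (∀ i, G i) := by
  refine Group.residuallyFinite_iff_forall_finiteIndexNormalSubgroup.2 ?_
  intro g hg
  funext i
  have h' := Group.residuallyFinite_iff_forall_finiteIndexNormalSubgroup.1 (h i)
  apply h'
  intro N
  exact hg (N.comap (Pi.evalMonoidHom G i))

theorem commute_hom {A B C : Type} [Group A] [Group B] [Group C] (f : A →* C) (g : B →* C)
    (S : Set A) (T : Set B) (hS : Subgroup.closure S = ⊤) (hT : Subgroup.closure T = ⊤)
    (h : ∀ s ∈ S, ∀ t ∈ T, Commute (f s) (g t)) : ∀ x y, Commute (f x) (g y) := by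
  intro x y
  have hx : x ∈ Subgroup.closure S := by rw [hS]; trivial
  have hy : y ∈ Subgroup.closure T := by rw [hT]; trivial
  induction hx using Subgroup.closure_induction with
  | mem x hx =>
    induction hy using Subgroup.closure_induction with
    | mem y hy => exact h x hx y hy
    | one => rw [map_one]; exact Commute.one_right _
    | mul y z _ _ h1 h2 => rw [map_mul]; exact h1.mul_right h2
    | inv y _ h1 => rw [map_inv]; exact h1.inv_right
  | one => rw [map_one]; exact Commute.one_left _
  | mul y z _ _ h1 h2 => rw [map_mul]; exact h1.mul_left h2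
  | inv y _ h1 => rw [map_inv]; exact h1.inv_left

/-- RFP -/
theorem rfp : RfpStmt := by
  classical
  intro S _ M ι _ b hb hRF
  letI : Fintype ι := Fintype.ofFinite ι
  obtain ⟨Φ, hΦ⟩ := lift M (G := ∀ i, Gp (res M {s | b s = i}))
    (fun s => Pi.mulSingle (b s) (gen (res M {t | b t = b s}) ⟨s, rfl⟩)) (by
    intro s t hst
    by_cases h : b s = b t
    · have key : ∀ (i : ι) (hs : b s = i) (ht : b t = i),
          Pi.mulSingle (M := fun i => Gp (res M {s | b s = i})) (b s)
            (gen (res M {t | b t = b s}) ⟨s, rfl⟩) =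
            Pi.mulSingle (M := fun i => Gp (res M {s | b s = i})) i (gen (res M {t | b t = i}) ⟨s, hs⟩) ∧
          Pi.mulSingle (M := fun i => Gp (res M {s | b s = i})) (b t)
            (gen (res M {s | b s = b t}) ⟨t, rfl⟩) =
            Pi.mulSingle (M := fun i => Gp (res M {s | b s = i})) i (gen (res M {t | b t = i}) ⟨t, ht⟩) := by
        intro i hs ht
        subst hs
        refine ⟨rfl, ?_⟩
        have : ∀ (j : ι) (hj : b t = j), Pi.mulSingle (M := fun i => Gp (res M {s | b s = i})) (b t)
            (gen (res M {s | b s = b t}) ⟨t, rfl⟩) =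
            Pi.mulSingle (M := fun i => Gp (res M {s | b s = i})) j (gen (res M {t | b t = j}) ⟨t, hj⟩) := by
          intro j hj
          subst hj
          rfl
        exact this _ ht
      obtain ⟨k1, k2⟩ := key (b t) h rfl
      rw [k1]
      have h1 := map_alt (MonoidHom.mulSingle (fun i => Gp (res M {s | b s = i})) (b t)) (M.M s t)
        (gen (res M {u | b u = b t}) ⟨s, h⟩) (gen (res M {u | b u = b t}) ⟨t, rfl⟩)
      have h2 := map_alt (MonoidHom.mulSingle (fun i => Gp (res M {s | b s = i})) (b t)) (M.M s t)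
        (gen (res M {u | b u = b t}) ⟨t, rfl⟩) (gen (res M {u | b u = b t}) ⟨s, h⟩)
      simp only [MonoidHom.mulSingle_apply] at h1 h2
      rw [← h1, ← h2]
      have := relHolds (res M {u | b u = b t}) ⟨s, h⟩ ⟨t, rfl⟩ hst
      rw [res_apply] at this
      rw [this]
    · have h2 : M.M s t = 2 := hb s t h
      rw [h2, alt_two, alt_two]
      exact Pi.mulSingle_commute h _ _)
  choose ι' hι' using fun i => inc M {s | b s = i}
  have hcomm : Pairwise fun i j => ∀ x y, Commute (ι' i x) (ι' j y) := by
    intro i j hij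
    refine commute_hom (ι' i) (ι' j) _ _ (closure_gen _) (closure_gen _) ?_
    rintro _ ⟨x, rfl⟩ _ ⟨y, rfl⟩
    rw [hι', hι']
    have hxy : M.M x.1 y.1 = 2 := by
      apply hb
      rw [x.2, y.2]
      exact hij
    have h := relHolds M x.1 y.1 (by rw [hxy]; norm_num)
    rw [hxy, alt_two, alt_two] at h
    exact h
  let Ψ := MonoidHom.noncommPiCoprod ι' hcomm
  have hid : Ψ.comp Φ = MonoidHom.id _ := by
    apply ext
    intro s
    show Ψ (Φ (gen M s)) = gen M s
    rw [hΦ]
    show MonoidHom.noncommPiCoprod ι' hcomm _ = _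
    rw [MonoidHom.noncommPiCoprod_mulSingle, hι']
  have hinj : Function.Injective Φ := by
    intro x y hxy
    have hx := DFunLike.congr_fun hid x
    have hy := DFunLike.congr_fun hid y
    simp only [MonoidHom.comp_apply, MonoidHom.id_apply] at hx hy
    rw [← hx, ← hy, hxy]
  exact rf_of_inj Φ hinj (rf_pi _ hRF)

end Unf.H27
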